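import Pool.Agent.Helper66.SC.Final
import Pool.Agent.Helper40.CC.Lower
import Pool.Agent.Helper41.LC.Asymp

/-!
# The order of magnitude of the minimal covers, dissections and triangulations of the cube

For every `d ≥ 1` the cube `I_d` has a triangulation by vertex simplices with at most
`π^d * sqrt (d! / (d+1))` members, and this number is at most `(9/4 * sqrt d)^d`. Every cover of
`I_d` by arbitrary simplices has at least `(2/3 * sqrt d)^d` members and, for every `c < π / e` and
all large `d`, at least `(c * sqrt d)^d` members.

Outline of the upper bound. Give the vertices `v` of the cube independent heights `h v` with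
`P(h v > t) = exp (-exp t)`. The lower simplices of the lifted points form a triangulation. By the
change of variables from the heights of `d+1` vertices to the interpolating affine function `l` the
expected number of lower simplices is the integral over all `l` of `exp (-Z) * D`, where
`Z = ∑ exp (l v)` and `D` is the sum over all `(d+1)`-sets `S` of vertices of
`|det S| * ∏_{v ∈ S} exp (l v)`. By the Cauchy-Schwarz inequality and the Cauchy-Binet formula
`D ≤ Z^(d+1) * sqrt (∏ x_i (1 - x_i)) / sqrt ((d+1)!)`, since the weights `exp (l v)` are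
proportional to a product measure with means `x_i = e^{b_i} / (1 + e^{b_i})`; the integrals over the
constant term and over the `b_i` are `d!` and `π`.

Outline of the lower bound. Let `S` be a `d`-simplex in the cube with vertices `v_0, ..., v_d`,
barycentric coordinates `t_j` and `D = d! * vol S`. Hadamard's inequality for the covariance matrix
of the vertices with weights `t_j` gives `D * sqrt (∏ t_j) ≤ ∏ sqrt (x_i (1 - x_i))` at every point
`x` of `S`. If `m` are the coordinates of the point of a convex piece `C` of `S` at which `∏ t_j` is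
largest, then `∑ t_j / m_j ≤ d + 1` on `C`, hence `vol C ≤ D * (d+1)^(d+1) * ∏ m_j / d!`. So the
measure with density `∏ (x_i (1 - x_i))^(-1/2)` of a piece on which the density is constant up to a
factor `E` is at most `E * (d+1)^((d+1)/2) / d!`. By Maurey's lemma `S` is covered by `(d+1)^s`
balls of radius `sqrt (d / (4 s))`, and inside `[δ, 1 - δ]^d` the density is nearly constant on
them.
-/

namespace Pool.Agent.Results.MP_f61dea_co.BoundsAllDimensions

open Helper67.Cube

/-- Each of the six numbers `C`, `C^v`, `D`, `D^v`, `T`, `T^v` of the cube `I_d` is at most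
`π^d * sqrt (d! / (d+1)) ≤ (9/4 * sqrt d)^d` and at least `(2/3 * sqrt d)^d`, and at least
`(c * sqrt d)^d` for every `c < π / e` and all large `d`. -/
theorem result :
    (∀ d : ℕ, 1 ≤ d →
      (∃ (N : ℕ) (W : Fin N → Fin (d+1) → Fin d → ℝ), IsTriangulation W ∧ IsVertexFamily W ∧
        (N : ℝ) ≤ Real.pi ^ d * Real.sqrt (d.factorial / (d + 1))) ∧
      Real.pi ^ d * Real.sqrt (d.factorial / (d + 1)) ≤ (9 / 4 * Real.sqrt d) ^ d ∧
      ∀ (N : ℕ) (W : Fin N → Fin (d+1) → Fin d → ℝ), IsCover W → (2 / 3 * Real.sqrt d) ^ d ≤ N) ∧
    (∀ c : ℝ, 0 ≤ c → c < Real.pi / Real.exp 1 →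
      ∃ d₀ : ℕ, ∀ d : ℕ, d₀ ≤ d → ∀ (N : ℕ) (W : Fin N → Fin (d+1) → Fin d → ℝ), IsCover W →
        (c * Real.sqrt d) ^ d ≤ N) :=
  ⟨fun d hd => ⟨Pool.Agent.Helper66.SC.stGoal d, Pool.Agent.Helper66.SC.bound_le d hd,
    fun N W hW => Helper40.CC.lower d hd N W hW⟩, fun c hc0 hc => Helper41.LC.asymp c hc0 hc⟩

end Pool.Agent.Results.MP_f61dea_co.BoundsAllDimensions
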