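import Pool.Agent.Helper67.Kept.FourCube
import Pool.Agent.Helper67.Kept.FiveCube
import Pool.Agent.Helper67.Kept.CoverBound
import Pool.Agent.Helper67.CubeTri4
import Pool.Agent.Helper67.CubeTri5

/-!
# The minimal sizes for the 4-cube and the 5-cube

Dimension 4: all six numbers are equal to 16; the new part is the lower bound for covers by
arbitrary simplices: the average over the members of `8 vol_4(S) + vol_3 (S ∩ ∂ I_4)` is at most
one.

Dimension 5: an invariant weight on the orbits of five points of the cube for which every vertex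
simplex has weight at most `7692 / (3840 * 133)` of the total weight; the 237 symmetry classes of
vertex simplices are enumerated and checked. A triangulation with arbitrary vertices is turned into
a cover by at most as many vertex simplices: each vertex is moved to a vertex of the cube without
leaving its face, and the piecewise linear map is onto (its degree is one: an integral that is a
polynomial in the time parameter and constant for small times).
-/

namespace Pool.Agent.Results.MP_f61dea_co.FourFiveCube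

open Helper67.Cube Helper67.Kept

/-- For the 4-cube, the least numbers of members of a cover, of a cover by vertex simplices, of a
dissection, of a dissection by vertex simplices, of a triangulation and of a triangulation by
vertex simplices are all equal to 16. For the 5-cube, the least numbers of members of a cover by
vertex simplices, of a dissection by vertex simplices, of a triangulation and of a triangulation by
vertex simplices are all equal to 67, and every cover by arbitrary simplices has at least 60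
members. -/
theorem result :
    (IsLeast {N : ℕ | ∃ W : Fin N → Fin 5 → Fin 4 → ℝ, IsCover W} 16 ∧
    IsLeast {N : ℕ | ∃ W : Fin N → Fin 5 → Fin 4 → ℝ, IsCover W ∧ IsVertexFamily W} 16 ∧
    IsLeast {N : ℕ | ∃ W : Fin N → Fin 5 → Fin 4 → ℝ, IsDissection W} 16 ∧
    IsLeast {N : ℕ | ∃ W : Fin N → Fin 5 → Fin 4 → ℝ, IsDissection W ∧ IsVertexFamily W} 16 ∧
    IsLeast {N : ℕ | ∃ W : Fin N → Fin 5 → Fin 4 → ℝ, IsTriangulation W} 16 ∧
    IsLeast {N : ℕ | ∃ W : Fin N → Fin 5 → Fin 4 → ℝ, IsTriangulation W ∧ IsVertexFamily W} 16) ∧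
    (IsLeast {N : ℕ | ∃ W : Fin N → Fin 6 → Fin 5 → ℝ, IsCover W ∧ IsVertexFamily W} 67 ∧
    IsLeast {N : ℕ | ∃ W : Fin N → Fin 6 → Fin 5 → ℝ, IsDissection W ∧ IsVertexFamily W} 67 ∧
    IsLeast {N : ℕ | ∃ W : Fin N → Fin 6 → Fin 5 → ℝ, IsTriangulation W} 67 ∧
    IsLeast {N : ℕ | ∃ W : Fin N → Fin 6 → Fin 5 → ℝ, IsTriangulation W ∧ IsVertexFamily W} 67 ∧
    ∀ (N : ℕ) (W : Fin N → Fin 6 → Fin 5 → ℝ), IsCover W → 60 ≤ N) := by
  refine ⟨?_, ?_⟩
  · obtain ⟨hT, hv⟩ := tri4
    refine ⟨⟨⟨_, hT.1.1⟩, ?_⟩, ⟨⟨_, hT.1.1, hv⟩, ?_⟩, ⟨⟨_, hT.1⟩, ?_⟩, ⟨⟨_, hT.1, hv⟩, ?_⟩,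
      ⟨⟨_, hT⟩, ?_⟩, ⟨⟨_, hT, hv⟩, ?_⟩⟩
    · rintro N ⟨W, hW⟩; exact FourCube.lower W hW
    · rintro N ⟨W, hW, -⟩; exact FourCube.lower W hW
    · rintro N ⟨W, hW⟩; exact FourCube.lower W hW.1
    · rintro N ⟨W, hW, -⟩; exact FourCube.lower W hW.1
    · rintro N ⟨W, hW⟩; exact FourCube.lower W hW.1.1
    · rintro N ⟨W, hW, -⟩; exact FourCube.lower W hW.1.1
  · obtain ⟨hT, hv⟩ := tri5
    refine ⟨⟨⟨_, hT.1.1, hv⟩, ?_⟩, ⟨⟨_, hT.1, hv⟩, ?_⟩, ⟨⟨_, hT⟩, ?_⟩, ⟨⟨_, hT, hv⟩, ?_⟩,
      fun N W hW => CoverBound.five W hW⟩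
    · rintro N ⟨W, hW, hv'⟩; exact FiveCube.lower W hW hv'
    · rintro N ⟨W, hW, hv'⟩; exact FiveCube.lower W hW.1 hv'
    · rintro N ⟨W, hW⟩; exact FiveCube.lowerT W hW
    · rintro N ⟨W, hW, hv'⟩; exact FiveCube.lower W hW.1.1 hv'

end Pool.Agent.Results.MP_f61dea_co.FourFiveCube
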