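import Pool.Agent.Helper67.Cube9.BaseV
import Pool.Agent.Helper67.Cube9.DX
import Pool.Agent.Helper63.Cube8.Level
import Pool.Agent.Helper51.Cube8.Data
import Pool.Agent.Helper41.ACBounds

/-!
# Lower bounds for the minimal sizes of decompositions of the cubes of dimension 7, ..., 12

For members with vertices in the cube `{0,1}^d`: on each of the `2 d` facets of the cube the
exterior facets of the members form a cover (dissection) of the cube of dimension `d - 1`. Going
down to dimension 6 this gives linear inequalities between the volumes and the numbers of exterior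
facets of the members; in dimension 6 they are combined with weights on 144 orbits of points of the
6-cube, checked on all 9892 symmetry classes of vertex simplices of the 6-cube. For dissections
eight of these classes are treated separately: the inequality at level 7 is checked for the
simplices with a facet in one of them.

For arbitrary members the same induction runs down to dimension 2.
-/

set_option autoImplicit false

namespace Pool.Agent.Results.MP_f61dea_co.SevenToTwelve

open Helper67.Cube Helper67.Cube18 Helper67.Cube18.ObjV Helper67.BS Helper41.Target Helper63.Cube8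
open Helper51.Cube8

/-- the codes of the classes -/
def cd : ℕ → ℕ := nth cdL

/-- the witnesses -/
def wt : ℕ → ℕ → ℕ := fun a v => nth (nthL wtL a) v

/-- the determinants of the exceptional classes -/
def dl : ℕ → ℕ := nth dlV

theorem ecOk : ∀ e ∈ ecV, ∃ a < 8, e = cd a := ecB_spec ecV 0 (by decide +kernel)

theorem detOk : detB cd dl 8 = true := by decide +kernel

theorem witOk : witB cd wt 8 Helper67.Cube9.DX.D.length = true := by decide +kernel

theorem cover7 {N : ℕ} {W : Fin N → Fin 8 → Fin 7 → ℝ} (hW : IsCover W)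
    (hv : IsVertexFamily W) : 1361 ≤ N :=
  boundC (t := 1) (B := 1361) (c := cC7) (lam := lamC7) (mu := muC7) base loC7 kpC7
    (by norm_num) (by decide +kernel) (by decide +kernel) (by decide +kernel) hW hv

theorem triangulation7 {N : ℕ} {W : Fin N → Fin 8 → Fin 7 → ℝ}
    (hW : IsTriangulation W) : 1361 ≤ N :=
  boundT (t := 1) (B := 1361) (c := cC7) (lam := lamC7) (mu := muC7) base loC7 kpC7
    (by norm_num) (by decide +kernel) (by decide +kernel) (by decide +kernel) hW

theorem dissection7 {N : ℕ} {W : Fin N → Fin 8 → Fin 7 → ℝ} (hW : IsDissection W)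
    (hv : IsVertexFamily W) : 1471 ≤ N :=
  boundX (t := 1) (i := 0) (B := 1471) (c := cD7) (lam := lamD7) (mu := muD7) (cd := cd)
    (dl := dl) (wt := wt) (nE := 8) (vl := nth vlD7) (TH := fun a k => nth (nthL thD7 a) k)
    base Helper67.Cube9.DX.ext loD7 kpD7 knD7 (by norm_num) rfl (by decide +kernel)
    (by decide +kernel) ecOk (by decide +kernel) witOk detOk (by decide +kernel) (by decide +kernel)
    (by decide +kernel) (by decide +kernel) hW hv

theorem cover8 {N : ℕ} {W : Fin N → Fin 9 → Fin 8 → ℝ} (hW : IsCover W)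
    (hv : IsVertexFamily W) : 6134 ≤ N :=
  boundC (t := 2) (B := 6134) (c := cC8) (lam := lamC8) (mu := muC8) base loC8 kpC8
    (by norm_num) (by decide +kernel) (by decide +kernel) (by decide +kernel) hW hv

theorem triangulation8 {N : ℕ} {W : Fin N → Fin 9 → Fin 8 → ℝ}
    (hW : IsTriangulation W) : 6134 ≤ N :=
  boundT (t := 2) (B := 6134) (c := cC8) (lam := lamC8) (mu := muC8) base loC8 kpC8
    (by norm_num) (by decide +kernel) (by decide +kernel) (by decide +kernel) hW

theorem dissection8 {N : ℕ} {W : Fin N → Fin 9 → Fin 8 → ℝ} (hW : IsDissection W)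
    (hv : IsVertexFamily W) : 6800 ≤ N :=
  boundX (t := 2) (i := 1) (B := 6800) (c := cD8) (lam := lamD8) (mu := muD8) (cd := cd)
    (dl := dl) (wt := wt) (nE := 8) (vl := nth vlD8) (TH := fun a k => nth (nthL thD8 a) k)
    base Helper67.Cube9.DX.ext loD8 kpD8 knD8 (by norm_num) rfl (by decide +kernel)
    (by decide +kernel) ecOk (by decide +kernel) witOk detOk (by decide +kernel) (by decide +kernel)
    (by decide +kernel) (by decide +kernel) hW hv

theorem cover9 {N : ℕ} {W : Fin N → Fin 10 → Fin 9 → ℝ} (hW : IsCover W)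
    (hv : IsVertexFamily W) : 28165 ≤ N :=
  boundC (t := 3) (B := 28165) (c := cC9) (lam := lamC9) (mu := muC9) base loC9 kpC9
    (by norm_num) (by decide +kernel) (by decide +kernel) (by decide +kernel) hW hv

theorem triangulation9 {N : ℕ} {W : Fin N → Fin 10 → Fin 9 → ℝ}
    (hW : IsTriangulation W) : 28165 ≤ N :=
  boundT (t := 3) (B := 28165) (c := cC9) (lam := lamC9) (mu := muC9) base loC9 kpC9
    (by norm_num) (by decide +kernel) (by decide +kernel) (by decide +kernel) hW

theorem dissection9 {N : ℕ} {W : Fin N → Fin 10 → Fin 9 → ℝ} (hW : IsDissection W)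
    (hv : IsVertexFamily W) : 31535 ≤ N :=
  boundX (t := 3) (i := 2) (B := 31535) (c := cD9) (lam := lamD9) (mu := muD9) (cd := cd)
    (dl := dl) (wt := wt) (nE := 8) (vl := nth vlD9) (TH := fun a k => nth (nthL thD9 a) k)
    base Helper67.Cube9.DX.ext loD9 kpD9 knD9 (by norm_num) rfl (by decide +kernel)
    (by decide +kernel) ecOk (by decide +kernel) witOk detOk (by decide +kernel) (by decide +kernel)
    (by decide +kernel) (by decide +kernel) hW hv

theorem cover10 {N : ℕ} {W : Fin N → Fin 11 → Fin 10 → ℝ} (hW : IsCover W)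
    (hv : IsVertexFamily W) : 131727 ≤ N :=
  boundC (t := 4) (B := 131727) (c := cC10) (lam := lamC10) (mu := muC10) base loC10 kpC10
    (by norm_num) (by decide +kernel) (by decide +kernel) (by decide +kernel) hW hv

theorem triangulation10 {N : ℕ} {W : Fin N → Fin 11 → Fin 10 → ℝ}
    (hW : IsTriangulation W) : 131727 ≤ N :=
  boundT (t := 4) (B := 131727) (c := cC10) (lam := lamC10) (mu := muC10) base loC10 kpC10
    (by norm_num) (by decide +kernel) (by decide +kernel) (by decide +kernel) hW

theorem dissection10 {N : ℕ} {W : Fin N → Fin 11 → Fin 10 → ℝ} (hW : IsDissection W)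
    (hv : IsVertexFamily W) : 148232 ≤ N :=
  boundX (t := 4) (i := 3) (B := 148232) (c := cD10) (lam := lamD10) (mu := muD10) (cd := cd)
    (dl := dl) (wt := wt) (nE := 8) (vl := nth vlD10) (TH := fun a k => nth (nthL thD10 a) k)
    base Helper67.Cube9.DX.ext loD10 kpD10 knD10 (by norm_num) rfl (by decide +kernel)
    (by decide +kernel) ecOk (by decide +kernel) witOk detOk (by decide +kernel) (by decide +kernel)
    (by decide +kernel) (by decide +kernel) hW hv

theorem cover11 {N : ℕ} {W : Fin N → Fin 12 → Fin 11 → ℝ} (hW : IsCover W)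
    (hv : IsVertexFamily W) : 642183 ≤ N :=
  boundC (t := 5) (B := 642183) (c := cC11) (lam := lamC11) (mu := muC11) base loC11 kpC11
    (by norm_num) (by decide +kernel) (by decide +kernel) (by decide +kernel) hW hv

theorem triangulation11 {N : ℕ} {W : Fin N → Fin 12 → Fin 11 → ℝ}
    (hW : IsTriangulation W) : 642183 ≤ N :=
  boundT (t := 5) (B := 642183) (c := cC11) (lam := lamC11) (mu := muC11) base loC11 kpC11
    (by norm_num) (by decide +kernel) (by decide +kernel) (by decide +kernel) hW

theorem dissection11 {N : ℕ} {W : Fin N → Fin 12 → Fin 11 → ℝ} (hW : IsDissection W)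
    (hv : IsVertexFamily W) : 710339 ≤ N :=
  boundX (t := 5) (i := 4) (B := 710339) (c := cD11) (lam := lamD11) (mu := muD11) (cd := cd)
    (dl := dl) (wt := wt) (nE := 8) (vl := nth vlD11) (TH := fun a k => nth (nthL thD11 a) k)
    base Helper67.Cube9.DX.ext loD11 kpD11 knD11 (by norm_num) rfl (by decide +kernel)
    (by decide +kernel) ecOk (by decide +kernel) witOk detOk (by decide +kernel) (by decide +kernel)
    (by decide +kernel) (by decide +kernel) hW hv

theorem cover12 {N : ℕ} {W : Fin N → Fin 13 → Fin 12 → ℝ} (hW : IsCover W)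
    (hv : IsVertexFamily W) : 3266011 ≤ N :=
  boundC (t := 6) (B := 3266011) (c := cC12) (lam := lamC12) (mu := muC12) base loC12 kpC12
    (by norm_num) (by decide +kernel) (by decide +kernel) (by decide +kernel) hW hv

theorem triangulation12 {N : ℕ} {W : Fin N → Fin 13 → Fin 12 → ℝ}
    (hW : IsTriangulation W) : 3266011 ≤ N :=
  boundT (t := 6) (B := 3266011) (c := cC12) (lam := lamC12) (mu := muC12) base loC12 kpC12
    (by norm_num) (by decide +kernel) (by decide +kernel) (by decide +kernel) hW

theorem dissection12 {N : ℕ} {W : Fin N → Fin 13 → Fin 12 → ℝ} (hW : IsDissection W)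
    (hv : IsVertexFamily W) : 3497690 ≤ N :=
  boundX (t := 6) (i := 5) (B := 3497690) (c := cD12) (lam := lamD12) (mu := muD12) (cd := cd)
    (dl := dl) (wt := wt) (nE := 8) (vl := nth vlD12) (TH := fun a k => nth (nthL thD12 a) k)
    base Helper67.Cube9.DX.ext loD12 kpD12 knD12 (by norm_num) rfl (by decide +kernel)
    (by decide +kernel) ecOk (by decide +kernel) witOk detOk (by decide +kernel) (by decide +kernel)
    (by decide +kernel) (by decide +kernel) hW hv

/-- For `d = 7, ..., 12`: lower bounds for the number `N` of members of a cover of the `d`-cube by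
arbitrary simplices, of a cover by vertex simplices, of a triangulation (any vertices) and of a
dissection by vertex simplices. -/
theorem result :
    (∀ (N : ℕ) (W : Fin N → Fin 8 → Fin 7 → ℝ), (IsCover W → 1117 ≤ N) ∧
      (IsCover W → IsVertexFamily W → 1361 ≤ N) ∧ (IsTriangulation W → 1361 ≤ N) ∧
      (IsDissection W → IsVertexFamily W → 1471 ≤ N)) ∧
    (∀ (N : ℕ) (W : Fin N → Fin 9 → Fin 8 → ℝ), (IsCover W → 4680 ≤ N) ∧
      (IsCover W → IsVertexFamily W → 6134 ≤ N) ∧ (IsTriangulation W → 6134 ≤ N) ∧
      (IsDissection W → IsVertexFamily W → 6800 ≤ N)) ∧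
    (∀ (N : ℕ) (W : Fin N → Fin 10 → Fin 9 → ℝ), (IsCover W → 21384 ≤ N) ∧
      (IsCover W → IsVertexFamily W → 28165 ≤ N) ∧ (IsTriangulation W → 28165 ≤ N) ∧
      (IsDissection W → IsVertexFamily W → 31535 ≤ N)) ∧
    (∀ (N : ℕ) (W : Fin N → Fin 11 → Fin 10 → ℝ), (IsCover W → 95064 ≤ N) ∧
      (IsCover W → IsVertexFamily W → 131727 ≤ N) ∧ (IsTriangulation W → 131727 ≤ N) ∧
      (IsDissection W → IsVertexFamily W → 148232 ≤ N)) ∧
    (∀ (N : ℕ) (W : Fin N → Fin 12 → Fin 11 → ℝ), (IsCover W → 502289 ≤ N) ∧
      (IsCover W → IsVertexFamily W → 642183 ≤ N) ∧ (IsTriangulation W → 642183 ≤ N) ∧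
      (IsDissection W → IsVertexFamily W → 710339 ≤ N)) ∧
    (∀ (N : ℕ) (W : Fin N → Fin 13 → Fin 12 → ℝ), (IsCover W → 2784765 ≤ N) ∧
      (IsCover W → IsVertexFamily W → 3266011 ≤ N) ∧ (IsTriangulation W → 3266011 ≤ N) ∧
      (IsDissection W → IsVertexFamily W → 3497690 ≤ N)) :=
  ⟨fun _ _ => ⟨fun h => Helper41.AC.seven h, fun h hv => cover7 h hv,
      fun h => triangulation7 h, fun h hv => dissection7 h hv⟩,
    fun _ _ => ⟨fun h => Helper41.AC.eight h, fun h hv => cover8 h hv,
      fun h => triangulation8 h, fun h hv => dissection8 h hv⟩,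
    fun _ _ => ⟨fun h => Helper41.AC.nine h, fun h hv => cover9 h hv,
      fun h => triangulation9 h, fun h hv => dissection9 h hv⟩,
    fun _ _ => ⟨fun h => Helper41.AC.ten h, fun h hv => cover10 h hv,
      fun h => triangulation10 h, fun h hv => dissection10 h hv⟩,
    fun _ _ => ⟨fun h => Helper41.AC.eleven h, fun h hv => cover11 h hv,
      fun h => triangulation11 h, fun h hv => dissection11 h hv⟩,
    fun _ _ => ⟨fun h => Helper41.AC.twelve h, fun h hv => cover12 h hv,
      fun h => triangulation12 h, fun h hv => dissection12 h hv⟩⟩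

end Pool.Agent.Results.MP_f61dea_co.SevenToTwelve
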