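import Pool.Agent.Helper67.Cube6.Fin18
import Pool.Agent.Helper67.Cube6.Tri6
import Pool.Agent.Helper41.ACBounds
import Pool.Agent.Helper51.BS.Main
import Pool.Agent.Helper51.Cube6.K00
import Pool.Agent.Helper51.Cube6.K01
import Pool.Agent.Helper51.Cube6.K02
import Pool.Agent.Helper51.Cube6.K03
import Pool.Agent.Helper51.Cube6.K04
import Pool.Agent.Helper51.Cube6.K05
import Pool.Agent.Helper51.Cube6.K06
import Pool.Agent.Helper51.Cube6.K07
import Pool.Agent.Helper51.Cube6.K08
import Pool.Agent.Helper51.Cube6.K09
import Pool.Agent.Helper51.Cube6.K10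
import Pool.Agent.Helper51.Cube6.K11
import Pool.Agent.Helper51.Cube6.K12
import Pool.Agent.Helper51.Cube6.K13
import Pool.Agent.Helper51.Cube6.K14

/-!
# Vertex dissections of the 6-cube need exactly 308 simplices

Lower bounds: invariant weights on the orbits of 54 points of the cube (11 of them with negative
weights) for which every vertex simplex has at most the fraction `1 / 307.35` of the total weight
(dissections; the points with negative weights are counted only in the interior) respectively
`1 / 300.005` (covers, nonnegative weights). All 9892 symmetry classes of vertex simplices are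
enumerated and checked. Upper bound: an explicit triangulation. A triangulation with arbitrary
vertices is turned into a cover by at most as many vertex simplices: each vertex is moved to a
vertex of the cube without leaving its face, and the piecewise linear map is onto.
-/

set_option autoImplicit false

namespace Pool.Agent.Results.MP_f61dea_co.SixCube

open Helper67.Cube Helper67.Cube18
open Helper67.Cube6 (Ent)

/-- representatives of all classes of vertex simplices -/
def DD : List Ent :=
      Helper51.Cube6.K00.D ++ (Helper51.Cube6.K01.D ++ (Helper51.Cube6.K02.D ++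
      (Helper51.Cube6.K03.D ++ (Helper51.Cube6.K04.D ++ (Helper51.Cube6.K05.D ++
      (Helper51.Cube6.K06.D ++ (Helper51.Cube6.K07.D ++ (Helper51.Cube6.K08.D ++
      (Helper51.Cube6.K09.D ++ (Helper51.Cube6.K10.D ++ (Helper51.Cube6.K11.D ++
      (Helper51.Cube6.K12.D ++ (Helper51.Cube6.K13.D ++ (Helper51.Cube6.K14.D))))))))))))))

/-- set of the representatives of the list -/
def SS : ℕ :=
      maskL Helper51.Cube6.K00.O ||| (maskL Helper51.Cube6.K01.O ||| (maskL
      Helper51.Cube6.K02.O ||| (maskL Helper51.Cube6.K03.O ||| (maskL Helper51.Cube6.K04.O |||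
      (maskL Helper51.Cube6.K05.O ||| (maskL Helper51.Cube6.K06.O ||| (maskL
      Helper51.Cube6.K07.O ||| (maskL Helper51.Cube6.K08.O ||| (maskL Helper51.Cube6.K09.O |||
      (maskL Helper51.Cube6.K10.O ||| (maskL Helper51.Cube6.K11.O ||| (maskL
      Helper51.Cube6.K12.O ||| (maskL Helper51.Cube6.K13.O ||| (maskL
      Helper51.Cube6.K14.O))))))))))))))

theorem okD : OK 7700 9 6 OFF BC BD X18 one6 ev18 wc18 wp18 wn18 DD :=
  Helper51.Cube6.K00.ok.append (Helper51.Cube6.K01.ok.append (Helper51.Cube6.K02.ok.append
  (Helper51.Cube6.K03.ok.append (Helper51.Cube6.K04.ok.append (Helper51.Cube6.K05.ok.append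
  (Helper51.Cube6.K06.ok.append (Helper51.Cube6.K07.ok.append (Helper51.Cube6.K08.ok.append
  (Helper51.Cube6.K09.ok.append (Helper51.Cube6.K10.ok.append (Helper51.Cube6.K11.ok.append
  (Helper51.Cube6.K12.ok.append (Helper51.Cube6.K13.ok.append
  (Helper51.Cube6.K14.ok))))))))))))))

theorem partD : Part DD SS :=
  Helper51.Cube6.K00.part.append (Helper51.Cube6.K01.part.append
  (Helper51.Cube6.K02.part.append (Helper51.Cube6.K03.part.append
  (Helper51.Cube6.K04.part.append (Helper51.Cube6.K05.part.append
  (Helper51.Cube6.K06.part.append (Helper51.Cube6.K07.part.append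
  (Helper51.Cube6.K08.part.append (Helper51.Cube6.K09.part.append
  (Helper51.Cube6.K10.part.append (Helper51.Cube6.K11.part.append
  (Helper51.Cube6.K12.part.append (Helper51.Cube6.K13.part.append
  (Helper51.Cube6.K14.part))))))))))))))

theorem fullD : Nat.beq SS (fullM 9892) = true := by decide +kernel

/-- For the 6-cube, the least number of members of a dissection by vertex simplices and the least
number of members of a triangulation by vertex simplices are both equal to 308; every cover by
vertex simplices and every triangulation has at least 301 members, and every cover by arbitrary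
simplices has at least 250 members. -/
theorem result :
    IsLeast {N : ℕ | ∃ W : Fin N → Fin 7 → Fin 6 → ℝ, IsDissection W ∧ IsVertexFamily W} 308 ∧
    IsLeast {N : ℕ | ∃ W : Fin N → Fin 7 → Fin 6 → ℝ, IsTriangulation W ∧ IsVertexFamily W} 308 ∧
    (∀ (N : ℕ) (W : Fin N → Fin 7 → Fin 6 → ℝ), IsCover W → IsVertexFamily W → 301 ≤ N) ∧
    (∀ (N : ℕ) (W : Fin N → Fin 7 → Fin 6 → ℝ), IsTriangulation W → 301 ≤ N) ∧
    (∀ (N : ℕ) (W : Fin N → Fin 7 → Fin 6 → ℝ), IsCover W → 250 ≤ N) := by
  obtain ⟨hT, hv⟩ := tri6
  refine ⟨⟨⟨_, hT.1, hv⟩, ?_⟩, ⟨⟨_, hT, hv⟩, ?_⟩, ?_, ?_,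
    fun N W hW => Helper41.AC.six hW⟩
  · rintro N ⟨W, hW, hv'⟩; exact dissection308 okD partD fullD hW hv'
  · rintro N ⟨W, hW, hv'⟩; exact dissection308 okD partD fullD hW.1 hv'
  · intro N W hW hv'; exact cover301 okD partD fullD hW hv'
  · intro N W hW
    obtain ⟨N', hN, W', hW', hv'⟩ := Helper51.BS.vertex_cover_of_triangulation hW
    exact (cover301 okD partD fullD hW' hv').trans hN

end Pool.Agent.Results.MP_f61dea_co.SixCube
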